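import Pool.Agent.helper25.TW.Spec
import Pool.Agent.helper61.DP.RHM

/-! Row MNO of the project TWO (MP_f42afa_pr): monotonicity of the crossings. -/

set_option autoImplicit false

namespace TP.TW

open DP MeasureTheory Finset

theorem MNO : MNO_stmt := by
  intro c k W a b d e a' b' d' e'
  refine ⟨?_, ?_⟩
  · rintro h1 h2 h3 h4 h5 ⟨u, v, huv, h⟩
    simp only [if_true] at huv
    obtain ⟨p, q, hp, hq, h6⟩ := RHM_mid (fun z => z.2)
      (fun a b hab => by rw [adj_iff] at hab; omega) d' e' h4 h (by omega) (by omega)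
    refine ⟨p, q, ?_, Con.mono ?_ h6⟩
    · simp only [if_true]
      exact ⟨hp, hq⟩
    rintro z ⟨⟨⟨hz1, hz2⟩, hz3⟩, hz4⟩
    refine ⟨⟨?_, hz2⟩, hz3⟩
    simp only [rect, Set.mem_ofPred_eq] at hz1 hz4 ⊢
    omega
  · rintro h1 h2 h3 h4 h5 ⟨u, v, huv, h⟩
    simp only [if_false, Bool.false_eq_true] at huv
    obtain ⟨p, q, hp, hq, h6⟩ := RHM_mid (fun z => z.1)
      (fun a b hab => by rw [adj_iff] at hab; omega) a' b' h2 h (by omega) (by omega)
    refine ⟨p, q, ?_, Con.mono ?_ h6⟩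
    · simp only [if_false, Bool.false_eq_true]
      exact ⟨hp, hq⟩
    rintro z ⟨⟨⟨hz1, hz2⟩, hz3⟩, hz4⟩
    refine ⟨⟨?_, hz2⟩, hz3⟩
    simp only [rect, Set.mem_ofPred_eq] at hz1 hz4 ⊢
    omega

end TP.TW
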